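import Pool.Agent.MP_bfa999_lc.Mg.Three

namespace Pool.Agent.Results.MP_bfa999_lc.BelowHamming

open Pool.Agent.MP_bfa999_lc

/-- `n_min(3,3) < ℓ_H(3,3)`. -/
theorem result :
    sInf {n : ℕ | ∃ m : ℕ, InS (ZMod 3) 3 m n} < sInf {n : ℕ | HamMWS (ZMod 3) 3 n} :=
  nmin_lt_ham

end Pool.Agent.Results.MP_bfa999_lc.BelowHamming
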