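import Pool.Agent.MP_bfa999_lc.Mg.Upper

namespace Pool.Agent.Results.MP_bfa999_lc.Bounds

open Pool.Agent.MP_bfa999_lc

theorem result (F : Type) [Field F] [Fintype F] (q : ℕ) (hq : q = Fintype.card F) (k : ℕ)
    (hk : 2 ≤ k) :
    {p : ℕ × ℕ | q ^ k + 30 * q ^ (k - 1) ≤ 2 * min p.1 p.2} ⊆ {p | InS F k p.1 p.2} ∧
    {p : ℕ × ℕ | InS F k p.1 p.2} ⊆ {p | q * ((q ^ k - 1) / (q - 1)) ≤ 2 * min p.1 p.2} := by
  subst hq
  exact ⟨fun _ h => upper (one_le_two.trans hk) h, fun _ h => lower hk h⟩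

end Pool.Agent.Results.MP_bfa999_lc.Bounds
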