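import Pool.Agent.MP_bfa999_lc.Mg.Square

namespace Pool.Agent.Results.MP_bfa999_lc.Square

open Pool.Agent.MP_bfa999_lc

/-- `S(q,k) = {(m,n) : n_min(q,k) ≤ min(m,n)}`. -/
theorem result (F : Type) [Field F] [Fintype F] (k : ℕ) (hk : 1 ≤ k) (m n : ℕ) :
    InS F k m n ↔ sInf {n' : ℕ | ∃ m' : ℕ, InS F k m' n'} ≤ min m n :=
  inS_iff_min hk m n

end Pool.Agent.Results.MP_bfa999_lc.Square
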