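import Pool.Agent.MP_bfa999_lc.Mg.Upper

namespace Pool.Agent.Results.MP_bfa999_lc.TwoDim

open Pool.Agent.MP_bfa999_lc

theorem result (F : Type) [Field F] [Fintype F] (q : ℕ) (hq : q = Fintype.card F) (m n : ℕ) :
    InS F 2 m n ↔ q * (q + 1) ≤ 2 * min m n := by
  subst hq
  refine ⟨fun h => ?_, upper_two⟩
  have h1 := lower le_rfl h
  have hq2 : 2 ≤ Fintype.card F := Fintype.one_lt_card
  rw [geom_div _ _ hq2] at h1
  simpa [Finset.sum_range_succ, add_comm] using h1

end Pool.Agent.Results.MP_bfa999_lc.TwoDim
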